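import Pool.Agent.H923R2.FZ.Stubs1

/-! FZ, task POS: approximate unitary equivalence of positive contractions with the same law. -/

set_option autoImplicit false

open scoped ComplexConjugate

namespace Pool.Agent.H923R2.FZ.T_POS

open Pool.Agent.H923R2.FP Pool.Agent.H923R2.FZ

theorem chi_cont (L j : ℕ) : Continuous (chi L j) := by
  unfold chi
  fun_prop

theorem chi_mono (L j : ℕ) (t : ℝ) : chi L j t ≤ chi L (j + 1) t := by
  unfold chi
  push_cast
  exact max_le_max le_rfl (min_le_min le_rfl (by linarith))

theorem pc_conj {B : Type} [CStarAlgebra B] {a : B} (ha : PC a) (u : unitary B) :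
    PC ((u : B) * a * star (u : B)) := by
  refine ⟨?_, ?_⟩
  · exact ha.1.conjugate (u : B)
  · have h : spectrum ℝ ((u : B) * a * star (u : B)) = spectrum ℝ a :=
      Unitary.spectrum_star_right_conjugate
    rw [h]
    exact ha.2

theorem t_POS (hPOSI : S_POSI) (hPOSE : S_POSE) : S_POS := by
  intro B _ τ hτ hMV a b ha hb hSL hFS ε hε
  obtain ⟨L, hL30, hLε⟩ : ∃ L : ℕ, 30 ≤ L ∧ 20 / (L : ℝ) < ε := by
    obtain ⟨n, hn⟩ := exists_nat_gt (20 / ε)
    refine ⟨max n 30, le_max_right _ _, ?_⟩
    have h1 : 20 / ε < ((max n 30 : ℕ) : ℝ) := hn.trans_le (by exact_mod_cast le_max_left n 30)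
    have h2 : 0 < ((max n 30 : ℕ) : ℝ) := by positivity
    rw [div_lt_iff₀ hε] at h1
    rw [div_lt_iff₀ h2]
    linarith
  have hLpos : (0 : ℝ) < L := by
    have : (30 : ℝ) ≤ L := by exact_mod_cast hL30
    linarith
  obtain ⟨u, v, huv⟩ := hPOSI B τ hτ hMV a b L ha hb hL30 hSL (by
    intro j hj
    have hF := hFS (fun t => chi L (j + 1) t - chi L j t)
      ((chi_cont L (j + 1)).sub (chi_cont L j)) (fun t => sub_nonneg.2 (chi_mono L j t))
      ⟨((L : ℝ) - j - 1) / L, ?_, ?_⟩
    · rw [cfc_sub (chi L (j + 1)) (chi L j) a (chi_cont L (j + 1)).continuousOn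
        (chi_cont L j).continuousOn, map_sub, Complex.sub_re] at hF
      linarith
    · have h1 : ((j : ℝ) + 1) < L := by exact_mod_cast hj
      constructor
      · apply div_nonneg _ hLpos.le
        linarith
      · rw [div_le_one hLpos]
        have : (0 : ℝ) ≤ j := Nat.cast_nonneg j
        linarith
    · have h1 : (L : ℝ) * (((L : ℝ) - j - 1) / L) = (L : ℝ) - j - 1 := by
        field_simp
      unfold chi
      simp only [h1]
      push_cast
      have e1 : (L : ℝ) - j - 1 - L + (j + 1) + 1 = 1 := by ring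
      have e2 : (L : ℝ) - j - 1 - L + j + 1 = 0 := by ring
      rw [e1, e2]
      norm_num)
  have hclose := hPOSE B ((u : B) * a * star (u : B)) ((v : B) * b * star (v : B)) L
    (pc_conj ha u) (pc_conj hb v) hL30 huv
  refine ⟨star v * u, ?_⟩
  have e : ((star v * u : unitary B) : B) * a * star ((star v * u : unitary B) : B) - b =
      star (v : B) * ((u : B) * a * star (u : B) - (v : B) * b * star (v : B)) * (v : B) := by
    have hv : star (v : B) * (v : B) = 1 := Unitary.coe_star_mul_self v
    rw [Submonoid.coe_mul, Unitary.coe_star, star_mul, star_star, mul_sub, sub_mul]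
    congr 1
    · simp only [mul_assoc]
    · calc b = (star (v : B) * (v : B)) * b * (star (v : B) * (v : B)) := by
            rw [hv, one_mul, mul_one]
        _ = _ := by simp only [mul_assoc]
  rw [e]
  have hv1 : ‖star (v : B) * ((u : B) * a * star (u : B) - (v : B) * b * star (v : B)) * (v : B)‖ ≤
      ‖(u : B) * a * star (u : B) - (v : B) * b * star (v : B)‖ := by
    rw [CStarRing.norm_mul_coe_unitary]
    have h2 := CStarRing.norm_coe_unitary_mul (star v)
      ((u : B) * a * star (u : B) - (v : B) * b * star (v : B))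
    rw [Unitary.coe_star] at h2
    exact h2.le
  exact (hv1.trans hclose).trans_lt hLε

end Pool.Agent.H923R2.FZ.T_POS
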